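import Pool.Agent.H4.FV.OddT

set_option autoImplicit false
set_option linter.unusedVariables false
set_option linter.unusedSectionVars false

/-! Task ODD-SIND of helper4: independence of configurations in the standard algebra. -/

namespace Pool.Agent.H356.FV

open Pool.Agent.H4.FV.Odd
open Pool.Agent.R620.GG

section

variable {p : ℕ} [Fact p.Prime] {Γ : ℕ → ℕ → Prop}

/-- the coordinates of the first component -/
noncomputable def co (β : Bs Γ) : SA p Γ →+ ZMod p where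
  toFun := fun x => x.1 β
  map_zero' := rfl
  map_add' := fun _ _ => rfl

theorem co_apply (β : Bs Γ) (x : SA p Γ) : co β x = x.1 β := rfl

theorem co_smul (β : Bs Γ) (c : ZMod p) (x : SA p Γ) : co β (c • x) = c * x.1 β := rfl

theorem lcA_fst {ι : Type} [Fintype ι] (u : ι → SA p Γ) (c : ι → ZMod p) (β : Bs Γ) :
    (lcA p u c).1 β = ∑ i, c i * (u i).1 β := by
  rw [← co_apply]
  unfold lcA
  rw [map_sum]
  rfl

theorem add_fst (x y : SA p Γ) (β : Bs Γ) : (x + y).1 β = x.1 β + y.1 β := rfl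

theorem ct_of (hct : T_ct p Γ) {x : SA p Γ} (h : ∀ β, x.1 β = 0) : Ct x :=
  (hct x).2 (Finsupp.ext h)

theorem fst_of (hct : T_ct p Γ) {x : SA p Γ} (h : Ct x) (β : Bs Γ) : x.1 β = 0 := by
  rw [(hct x).1 h]
  rfl

end

theorem sind : S_sind := by
  intro p _ hp2 Γ hct htri hqd n m s t hsh v y z a b hcfg
  have hT := fun i => (htri (v i) (y i) (z i)).1 (hcfg.tri i)
  choose N hN1 hN2 using fun i => (hT i).2
  have hInd := fun i => (hT i).1
  -- the coefficient of a vertex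
  have hv0 : ∀ i, (v i).1 (Sum.inl (N i, 0)) ≠ 0 := by
    intro i h0
    refine hInd i ![1, 0, 0] ⟨0, one_ne_zero⟩ (ct_of hct fun β => ?_)
    rw [lcA_fst, Fin.sum_univ_three]
    by_cases hβ : β = Sum.inl (N i, 0)
    · subst hβ
      simp [h0]
    · simp [hN1 i β hβ]
  have hNi : Function.Injective N := by
    intro i j hij
    by_contra hne
    refine hcfg.ne i j hne ⟨fun _ => - ((v j).1 (Sum.inl (N j, 0)) / (v i).1 (Sum.inl (N i, 0))),
      ct_of hct fun β => ?_⟩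
    rw [add_fst, lcA_fst, Fin.sum_univ_one]
    by_cases hβ : β = Sum.inl (N i, 0)
    · subst hβ
      have h1 := hv0 i
      rw [hij] at h1 ⊢
      field_simp
      ring
    · rw [hN1 i β hβ, hN1 j β (by rw [← hij]; exact hβ)]
      ring
  have hQ := fun k => (hqd (v (s k)) (v (t k)) (a k) (b k)).1 (hcfg.qd k)
  have hQ' : ∀ k, ∃ q : {q : ℕ × ℕ // Eo Γ q.1 q.2},
      (∀ b', (∀ i, b' ≠ Sum.inr (q, i)) → (a k).1 b' = 0 ∧ (b k).1 b' = 0) ∧
      ((N (s k) = q.1.1 ∧ N (t k) = q.1.2) ∨ (N (s k) = q.1.2 ∧ N (t k) = q.1.1)) ∧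
      (a k).1 (Sum.inr (q, 0)) * (b k).1 (Sum.inr (q, 1)) -
          (a k).1 (Sum.inr (q, 1)) * (b k).1 (Sum.inr (q, 0)) ≠ 0 := by
    intro k
    obtain ⟨q, v', w', h1, h2, h3, h4, h5, h6⟩ := hQ k
    have e1 : v' = N (s k) := by
      by_contra hne
      exact h2 (hN1 (s k) _ fun h => hne (Prod.mk.inj (Sum.inl.inj h)).1)
    have e2 : w' = N (t k) := by
      by_contra hne
      exact h4 (hN1 (t k) _ fun h => hne (Prod.mk.inj (Sum.inl.inj h)).1)
    refine ⟨q, h5, ?_, ?_⟩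
    · rcases h6 with ⟨h7, h8, -⟩ | ⟨h7, h8, -⟩
      · exact Or.inl ⟨e1 ▸ h7, e2 ▸ h8⟩
      · exact Or.inr ⟨e1 ▸ h7, e2 ▸ h8⟩
    · rcases h6 with ⟨-, -, h9⟩ | ⟨-, -, h9⟩
      · rw [← h9]
        exact mul_ne_zero h2 h4
      · rw [← h9]
        exact neg_ne_zero.2 (mul_ne_zero h2 h4)
  choose q hq1 hq2 hq3 using hQ'
  have hqi : Function.Injective q := by
    intro k l hkl
    refine hsh.inj k l ?_
    rcases hq2 k with ⟨h1, h2⟩ | ⟨h1, h2⟩ <;> rcases hq2 l with ⟨h3, h4⟩ | ⟨h3, h4⟩ <;>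
      rw [hkl] at h1 h2
    · exact Or.inl ⟨hNi (h1.trans h3.symm), hNi (h2.trans h4.symm)⟩
    · exact Or.inr ⟨hNi (h1.trans h4.symm), hNi (h2.trans h3.symm)⟩
    · exact Or.inr ⟨hNi (h1.trans h4.symm), hNi (h2.trans h3.symm)⟩
    · exact Or.inl ⟨hNi (h1.trans h3.symm), hNi (h2.trans h4.symm)⟩
  -- supports
  have sup1 : ∀ i j β, (∀ l, β ≠ Sum.inl (N i, l)) →
      (cf v y z a b (Sum.inl (i, j))).1 β = 0 := by
    intro i j β hβ
    change ((![v i, y i, z i] : Fin 3 → SA p Γ) j).1 β = 0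
    fin_cases j
    · exact hN1 i β (hβ 0)
    · exact (hN2 i β hβ).1
    · exact (hN2 i β hβ).2
  have sup2 : ∀ k j β, (∀ l, β ≠ Sum.inr (q k, l)) →
      (cf v y z a b (Sum.inr (k, j))).1 β = 0 := by
    intro k j β hβ
    change ((![a k, b k] : Fin 2 → SA p Γ) j).1 β = 0
    fin_cases j
    · exact (hq1 k β hβ).1
    · exact (hq1 k β hβ).2
  rintro c ⟨ix, hix⟩ hC
  have hsum : ∀ β, ∑ i, c i * (cf v y z a b i).1 β = 0 := by
    intro β
    rw [← lcA_fst]
    exact fst_of hct hC β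
  have hsum1 : ∀ i l, ∑ j, c (Sum.inl (i, j)) *
      (cf v y z a b (Sum.inl (i, j))).1 (Sum.inl (N i, l)) = 0 := by
    intro i l
    have h := hsum (Sum.inl (N i, l))
    rw [Fintype.sum_sum_type, Fintype.sum_prod_type] at h
    rw [Finset.sum_eq_single i, add_eq_left.2] at h
    · exact h
    · refine Finset.sum_eq_zero fun x _ => ?_
      obtain ⟨k, j⟩ := x
      rw [sup2 k j _ (fun l' hh => by cases hh), mul_zero]
    · intro i' _ hi'
      refine Finset.sum_eq_zero fun j _ => ?_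
      rw [sup1 i' j _ (fun l' hh => hi' (hNi (Prod.mk.inj (Sum.inl.inj hh)).1.symm)), mul_zero]
    · intro h'
      exact absurd (Finset.mem_univ i) h'
  have hsum2 : ∀ k l, ∑ j, c (Sum.inr (k, j)) *
      (cf v y z a b (Sum.inr (k, j))).1 (Sum.inr (q k, l)) = 0 := by
    intro k l
    have h := hsum (Sum.inr (q k, l))
    rw [Fintype.sum_sum_type, add_eq_right.2, Fintype.sum_prod_type] at h
    rw [Finset.sum_eq_single k] at h
    · exact h
    · intro k' _ hk'
      refine Finset.sum_eq_zero fun j _ => ?_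
      rw [sup2 k' j _ (fun l' hh => hk' (hqi (Prod.mk.inj (Sum.inr.inj hh)).1.symm)), mul_zero]
    · intro h'
      exact absurd (Finset.mem_univ k) h'
    · refine Finset.sum_eq_zero fun x _ => ?_
      obtain ⟨i, j⟩ := x
      rw [sup1 i j _ (fun l' hh => by cases hh), mul_zero]
  rcases ix with ⟨i, j⟩ | ⟨k, j⟩
  · refine hInd i (fun j => c (Sum.inl (i, j))) ⟨j, hix⟩ (ct_of hct fun β => ?_)
    rw [lcA_fst]
    by_cases hβ : ∃ l, β = Sum.inl (N i, l)
    · obtain ⟨l, rfl⟩ := hβ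
      exact hsum1 i l
    · push Not at hβ
      refine Finset.sum_eq_zero fun j _ => ?_
      have h1 := sup1 i j β hβ
      change ((![v i, y i, z i] : Fin 3 → SA p Γ) j).1 β = 0 at h1
      rw [h1, mul_zero]
  · have h0 := hsum2 k 0
    have h1 := hsum2 k 1
    rw [Fin.sum_univ_two] at h0 h1
    change c (Sum.inr (k, 0)) * (a k).1 (Sum.inr (q k, 0)) +
      c (Sum.inr (k, 1)) * (b k).1 (Sum.inr (q k, 0)) = 0 at h0
    change c (Sum.inr (k, 0)) * (a k).1 (Sum.inr (q k, 1)) +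
      c (Sum.inr (k, 1)) * (b k).1 (Sum.inr (q k, 1)) = 0 at h1
    have hd := hq3 k
    have e0 : c (Sum.inr (k, 0)) = 0 := by
      have h2 : c (Sum.inr (k, 0)) * ((a k).1 (Sum.inr (q k, 0)) * (b k).1 (Sum.inr (q k, 1)) -
          (a k).1 (Sum.inr (q k, 1)) * (b k).1 (Sum.inr (q k, 0))) = 0 := by
        linear_combination (b k).1 (Sum.inr (q k, 1)) * h0 - (b k).1 (Sum.inr (q k, 0)) * h1
      exact (mul_eq_zero.1 h2).resolve_right hd
    have e1 : c (Sum.inr (k, 1)) = 0 := by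
      have h2 : c (Sum.inr (k, 1)) * ((a k).1 (Sum.inr (q k, 0)) * (b k).1 (Sum.inr (q k, 1)) -
          (a k).1 (Sum.inr (q k, 1)) * (b k).1 (Sum.inr (q k, 0))) = 0 := by
        linear_combination (a k).1 (Sum.inr (q k, 0)) * h1 - (a k).1 (Sum.inr (q k, 1)) * h0
      exact (mul_eq_zero.1 h2).resolve_right hd
    fin_cases j
    · exact hix e0
    · exact hix e1

end Pool.Agent.H356.FV
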